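import Mathlib
import Pool.Agent.Hhelper25.Biuni.Shift

/-!
The maximal modulus of the top coefficient `a_n` of a bi-univalent polynomial
`z + a_2 z^2 + ... + a_n z^n` on the unit disc is `(n-1)^(n-1) / n^n`.
-/

set_option autoImplicit false

namespace Pool.Agent.Results.MP_e182ca_an.MaxTopCoeff

open Set Filter Topology
open Pool.Agent.Hhelper25.Biuni

noncomputable section

/-- The open unit disc. -/
def Disc : Set ℂ := Metric.ball (0 : ℂ) 1

/-- Normalised bi-univalent functions on the unit disc: `f` is analytic and injective on the disc,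
`f 0 = 0`, `f' 0 = 1`, and there is an analytic injective `g` on the whole disc that coincides near
`0` with the local inverse of `f` at `0`. -/
structure BiUnivalent (f : ℂ → ℂ) : Prop where
  analytic : AnalyticOnNhd ℂ f Disc
  map_zero : f 0 = 0
  deriv_zero : deriv f 0 = 1
  inj : InjOn f Disc
  inverse : ∃ g : ℂ → ℂ, AnalyticOnNhd ℂ g Disc ∧ (∀ᶠ z in 𝓝 (0 : ℂ), g (f z) = z) ∧ InjOn g Disc

/-- The class `𝒱_n` of the bi-univalent polynomials `z + a_2 z^2 + ... + a_n z^n`. -/
def Vn (n : ℕ) : Set (Polynomial ℂ) :=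
  {P | P.natDegree ≤ n ∧ BiUnivalent (fun z => P.eval z)}

lemma exp_la {m : ℕ} (hm : 1 ≤ m) : Real.exp (la m) = (m : ℝ) ^ m / ((m : ℝ) + 1) ^ (m + 1) := by
  have hm0 : (0 : ℝ) < m := by exact_mod_cast hm
  have hm1 : (0 : ℝ) < (m : ℝ) + 1 := by positivity
  unfold la cc
  rw [Real.exp_sub, Real.exp_log hm1, Real.exp_neg, ← Real.log_pow, Real.exp_log (by positivity)]
  rw [div_pow, pow_succ]
  field_simp

lemma eval_inverse {P : Polynomial ℂ} (h0 : P.eval 0 = 0) (h1 : P.derivative.eval 0 = 1) {g : ℂ → ℂ}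
    (hg : AnalyticOnNhd ℂ g Disc) (hgf : ∀ᶠ z in 𝓝 (0 : ℂ), g (P.eval z) = z) :
    g 0 = 0 ∧ ∀ w ∈ Metric.ball (0 : ℂ) 1, P.eval (g w) = w := by
  have hg0 : g 0 = 0 := by
    have := hgf.self_of_nhds
    rwa [h0] at this
  refine ⟨hg0, ?_⟩
  have hstrict : HasStrictDerivAt (fun z => P.eval z) (1 : ℂ) 0 := by
    have := P.hasStrictDerivAt 0
    rwa [h1] at this
  have hmap : map (fun z => P.eval z) (𝓝 (0 : ℂ)) = 𝓝 (0 : ℂ) := by
    have := hstrict.map_nhds_eq one_ne_zero
    rwa [h0] at this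
  have hev : ∀ᶠ w in 𝓝 (0 : ℂ), P.eval (g w) = w := by
    rw [← hmap, Filter.eventually_map]
    filter_upwards [hgf] with z hz
    rw [hz]
  have hPan : AnalyticOnNhd ℂ (fun w => P.eval (g w)) (Metric.ball (0 : ℂ) 1) := by
    intro w hw
    have h2 : AnalyticAt ℂ (fun z => P.eval z) (g w) := AnalyticOnNhd.eval_polynomial P _ (mem_univ _)
    exact h2.comp (hg w hw)
  have hid : AnalyticOnNhd ℂ (fun w : ℂ => w) (Metric.ball (0 : ℂ) 1) := fun w _ => analyticAt_id
  exact hPan.eqOn_of_preconnected_of_eventuallyEq hid (convex_ball _ _).isPreconnected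
    (Metric.mem_ball_self one_pos) hev

lemma upper {n : ℕ} (hn : 2 ≤ n) {P : Polynomial ℂ} (hP : P ∈ Vn n) :
    ‖P.coeff n‖ ≤ ((n : ℝ) - 1) ^ (n - 1) / (n : ℝ) ^ n := by
  obtain ⟨hdeg, hB⟩ := hP
  obtain ⟨m, rfl⟩ : ∃ m, n = m + 1 := ⟨n - 1, by omega⟩
  have hm : 1 ≤ m := by omega
  have hrhs : (((m + 1 : ℕ) : ℝ) - 1) ^ (m + 1 - 1) / ((m + 1 : ℕ) : ℝ) ^ (m + 1) = (m : ℝ) ^ m / ((m : ℝ) + 1) ^ (m + 1) := by
    push_cast
    rw [add_sub_cancel_right]
  rw [hrhs]
  rcases lt_or_eq_of_le hdeg with h | h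
  · rw [Polynomial.coeff_eq_zero_of_natDegree_lt h, norm_zero]
    positivity
  · have h1 : P.derivative.eval 0 = 1 := by
      have := hB.deriv_zero
      rwa [Polynomial.deriv] at this
    obtain ⟨g, hg1, hg2, -⟩ := hB.inverse
    obtain ⟨hg0, hpg⟩ := eval_inverse hB.map_zero h1 hg1 hg2
    have := lead_le P m hm h h1 g (fun w hw => (hg1 w hw).differentiableAt.differentiableWithinAt) hg0 hpg
    rw [Polynomial.leadingCoeff, h, exp_la hm] at this
    exact this

/-- the extremal polynomial `z + a z^(m+1)` -/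
def ext (m : ℕ) : Polynomial ℂ :=
  Polynomial.X + Polynomial.C (((m : ℝ) ^ m / ((m : ℝ) + 1) ^ (m + 1) : ℝ) : ℂ) * Polynomial.X ^ (m + 1)

lemma ext_biUnivalent {m : ℕ} (hm : 1 ≤ m) : BiUnivalent (fun z => (ext m).eval z) := by
  have hm0 : (0 : ℝ) < m := by exact_mod_cast hm
  have hm1 : (0 : ℝ) < (m : ℝ) + 1 := by positivity
  set a : ℝ := (m : ℝ) ^ m / ((m : ℝ) + 1) ^ (m + 1) with ha
  have ha0 : 0 < a := by positivity
  have ham : ((m : ℝ) + 1) * a = (m / ((m : ℝ) + 1)) ^ m := by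
    rw [ha, div_pow, pow_succ]; field_simp
  have ham1 : ((m : ℝ) + 1) * a ≤ 1 := by
    rw [ham]
    apply pow_le_one₀ (by positivity)
    rw [div_le_one hm1]; linarith
  have hev : ∀ z, (ext m).eval z = z + a * z ^ (m + 1) := by
    intro z
    simp only [ext, Polynomial.eval_add, Polynomial.eval_X, Polynomial.eval_mul, Polynomial.eval_C, Polynomial.eval_pow]
    rfl
  have hdev : ∀ z, (ext m).derivative.eval z = 1 + a * ((m : ℂ) + 1) * z ^ m := by
    intro z
    have : (ext m).derivative = 1 + Polynomial.C (a : ℂ) * (Polynomial.C ((m : ℂ) + 1) * Polynomial.X ^ m) := by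
      unfold ext
      rw [Polynomial.derivative_add, Polynomial.derivative_X, Polynomial.derivative_C_mul, Polynomial.derivative_X_pow]
      have e : ((m + 1 : ℕ) : ℂ) = (m : ℂ) + 1 := by push_cast; rfl
      rw [e, Nat.add_sub_cancel]
    rw [this]
    simp only [Polynomial.eval_add, Polynomial.eval_one, Polynomial.eval_mul, Polynomial.eval_C,
      Polynomial.eval_pow, Polynomial.eval_X]
    ring
  have hinj : InjOn (fun z => (ext m).eval z) Disc := by
    intro x hx y hy hxy
    have hx1 : ‖x‖ < 1 := by simpa [Disc] using hx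
    have hy1 : ‖y‖ < 1 := by simpa [Disc] using hy
    simp only [hev] at hxy
    by_contra hne
    have hsub : x - y ≠ 0 := sub_ne_zero.2 hne
    have h2 : (x - y) * (1 + a * ∑ i ∈ Finset.range (m + 1), x ^ i * y ^ (m + 1 - 1 - i)) = 0 := by
      have h3 := (Commute.all x y).mul_geom_sum₂ (m + 1)
      have h4 : (x - y) * (1 + a * ∑ i ∈ Finset.range (m + 1), x ^ i * y ^ (m + 1 - 1 - i)) =
          (x - y) + a * ((x - y) * ∑ i ∈ Finset.range (m + 1), x ^ i * y ^ (m + 1 - 1 - i)) := by ring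
      rw [h4, h3]
      linear_combination hxy
    have h5 := (mul_eq_zero.1 h2).resolve_left hsub
    have h6 : ‖(a : ℂ) * ∑ i ∈ Finset.range (m + 1), x ^ i * y ^ (m + 1 - 1 - i)‖ < 1 := by
      rw [norm_mul, Complex.norm_real, Real.norm_eq_abs, abs_of_pos ha0]
      have h7 : ‖∑ i ∈ Finset.range (m + 1), x ^ i * y ^ (m + 1 - 1 - i)‖ < (m : ℝ) + 1 := by
        calc ‖∑ i ∈ Finset.range (m + 1), x ^ i * y ^ (m + 1 - 1 - i)‖
            ≤ ∑ i ∈ Finset.range (m + 1), ‖x ^ i * y ^ (m + 1 - 1 - i)‖ := norm_sum_le _ _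
          _ < ∑ i ∈ Finset.range (m + 1), (1 : ℝ) := by
              apply Finset.sum_lt_sum
              · intro i _
                rw [norm_mul, norm_pow, norm_pow]
                exact mul_le_one₀ (pow_le_one₀ (norm_nonneg _) hx1.le) (by positivity)
                  (pow_le_one₀ (norm_nonneg _) hy1.le)
              · refine ⟨0, by simp, ?_⟩
                rw [norm_mul, norm_pow, norm_pow, pow_zero, one_mul]
                exact pow_lt_one₀ (norm_nonneg _) hy1 (by omega)
          _ = (m : ℝ) + 1 := by simp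
      calc a * ‖∑ i ∈ Finset.range (m + 1), x ^ i * y ^ (m + 1 - 1 - i)‖ < a * ((m : ℝ) + 1) := by gcongr
        _ ≤ 1 := by rw [mul_comm]; exact ham1
    have h8 : (a : ℂ) * ∑ i ∈ Finset.range (m + 1), x ^ i * y ^ (m + 1 - 1 - i) = -1 := by
      linear_combination h5
    rw [h8] at h6
    simp at h6
  -- critical values lie outside the disc
  have hcv : ∀ w ∈ Metric.ball (0 : ℂ) 1, w ∉ CV (ext m) := by
    rintro w hw ⟨k, hk, rfl⟩
    have hk' : 1 + (a : ℂ) * ((m : ℂ) + 1) * k ^ m = 0 := by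
      have := hdev k
      rw [← this]; exact hk
    have hmc : (m : ℂ) + 1 ≠ 0 := by exact_mod_cast hm1.ne'
    have h2 : (a : ℂ) * k ^ m = -1 / ((m : ℂ) + 1) := by
      field_simp
      linear_combination hk'
    have h3 : (ext m).eval k = k * ((m : ℂ) / ((m : ℂ) + 1)) := by
      rw [hev, pow_succ]
      have : k + (a : ℂ) * (k ^ m * k) = k * (1 + a * k ^ m) := by ring
      rw [this, h2]
      congr 1
      field_simp
      ring
    have h4 : ‖k‖ = ((m : ℝ) + 1) / m := by
      have h5 : a * ‖k‖ ^ m = 1 / ((m : ℝ) + 1) := by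
        have := congrArg norm h2
        rw [norm_mul, Complex.norm_real, Real.norm_eq_abs, abs_of_pos ha0, norm_pow, norm_div, norm_neg,
          norm_one] at this
        rw [this]
        congr 1
        have : (m : ℂ) + 1 = (((m : ℝ) + 1 : ℝ) : ℂ) := by push_cast; rfl
        rw [this, Complex.norm_real, Real.norm_eq_abs, abs_of_pos hm1]
      have h6 : ‖k‖ ^ m = (((m : ℝ) + 1) / m) ^ m := by
        have h7 : (((m : ℝ) + 1) * a) * ‖k‖ ^ m = 1 := by
          rw [mul_assoc, h5]; field_simp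
        rw [ham] at h7
        have h8 : ((m : ℝ) / ((m : ℝ) + 1)) ^ m * (((m : ℝ) + 1) / m) ^ m = 1 := by
          rw [← mul_pow]
          have : (m : ℝ) / ((m : ℝ) + 1) * (((m : ℝ) + 1) / m) = 1 := by field_simp
          rw [this, one_pow]
        have h9 : ((m : ℝ) / ((m : ℝ) + 1)) ^ m ≠ 0 := by positivity
        exact mul_left_cancel₀ h9 (h7.trans h8.symm)
      exact (pow_left_inj₀ (norm_nonneg _) (by positivity) (by omega)).1 h6
    have h10 : ‖(ext m).eval k‖ = 1 := by
      rw [h3, norm_mul, h4]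
      have : (m : ℂ) / ((m : ℂ) + 1) = (((m : ℝ) / ((m : ℝ) + 1) : ℝ) : ℂ) := by push_cast; rfl
      rw [this, Complex.norm_real, Real.norm_eq_abs, abs_of_pos (by positivity)]
      field_simp
    rw [mem_ball_zero_iff] at hw
    rw [show (fun x => Polynomial.eval x (ext m)) k = (ext m).eval k from rfl, h10] at hw
    exact lt_irrefl _ hw
  have h00 : (ext m).eval 0 = 0 := by rw [hev]; simp
  obtain ⟨s, hs1, hs2, hs3⟩ := lift_exists Metric.isOpen_ball
    ((convex_ball (0 : ℂ) 1).starConvex (Metric.mem_ball_self one_pos)) (Metric.mem_ball_self one_pos) hcv 0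
    (by rw [h00]; exact Metric.mem_ball_self one_pos)
  rw [h00] at hs3
  have hsd : DifferentiableOn ℂ s (Metric.ball 0 1) := by
    intro w hw
    have h2 : ContinuousAt s w := hs1.continuousAt (Metric.isOpen_ball.mem_nhds hw)
    have h3 : (ext m).derivative.eval (s w) ≠ 0 := by
      intro h
      exact hcv w hw ⟨s w, h, hs2 w hw⟩
    have h4 : HasDerivAt s ((ext m).derivative.eval (s w))⁻¹ w :=
      HasDerivAt.of_local_left_inverse h2 ((ext m).hasDerivAt (s w)) h3
        (by filter_upwards [Metric.isOpen_ball.mem_nhds hw] with y hy using hs2 y hy)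
    exact h4.differentiableAt.differentiableWithinAt
  refine ⟨?_, h00, ?_, hinj, s, hsd.analyticOnNhd Metric.isOpen_ball, ?_, ?_⟩
  · intro z _
    exact AnalyticOnNhd.eval_polynomial (ext m) _ (mem_univ z)
  · rw [Polynomial.deriv, hdev, zero_pow (by omega)]; simp
  · have h2 : ContinuousAt (fun z => (ext m).eval z) 0 := (ext m).continuous.continuousAt
    have h3 : ContinuousAt s ((ext m).eval 0) := by
      rw [h00]; exact hs1.continuousAt (Metric.ball_mem_nhds 0 one_pos)
    have h4 : ContinuousAt (fun z => s ((ext m).eval z)) 0 := ContinuousAt.comp (g := s) h3 h2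
    have h5 : ∀ᶠ z in 𝓝 (0 : ℂ), s ((ext m).eval z) ∈ Metric.ball (0 : ℂ) 1 := by
      apply h4.eventually
      simp only [h00, hs3]
      exact Metric.ball_mem_nhds 0 one_pos
    have h6 : ∀ᶠ z in 𝓝 (0 : ℂ), (ext m).eval z ∈ Metric.ball (0 : ℂ) 1 := by
      apply h2.eventually
      simp only [h00]
      exact Metric.ball_mem_nhds 0 one_pos
    filter_upwards [h5, h6, Metric.ball_mem_nhds (0 : ℂ) one_pos] with z h7 h8 h9
    exact hinj h7 h9 (hs2 _ h8)
  · intro x hx y hy hxy
    rw [← hs2 x hx, ← hs2 y hy, hxy]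

/-- For every `n ≥ 2` the maximum of `|a_n|` over the class `𝒱_n` of bi-univalent polynomials
`z + a_2 z^2 + ... + a_n z^n` is `(n-1)^(n-1) / n^n`. -/
theorem result (n : ℕ) (hn : 2 ≤ n) :
    IsGreatest {r : ℝ | ∃ P ∈ Vn n, r = ‖P.coeff n‖} (((n : ℝ) - 1) ^ (n - 1) / (n : ℝ) ^ n) := by
  constructor
  · obtain ⟨m, rfl⟩ : ∃ m, n = m + 1 := ⟨n - 1, by omega⟩
    have hm : 1 ≤ m := by omega
    refine ⟨ext m, ⟨?_, ext_biUnivalent hm⟩, ?_⟩
    · unfold ext
      apply (Polynomial.natDegree_add_le _ _).trans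
      rw [Polynomial.natDegree_X]
      exact max_le (by omega) (Polynomial.natDegree_C_mul_X_pow_le _ _)
    · have h2 : (ext m).coeff (m + 1) = (((m : ℝ) ^ m / ((m : ℝ) + 1) ^ (m + 1) : ℝ) : ℂ) := by
        unfold ext
        rw [Polynomial.coeff_add, Polynomial.coeff_X, if_neg (by omega), zero_add, Polynomial.coeff_C_mul_X_pow,
          if_pos rfl]
      rw [h2, Complex.norm_real, Real.norm_eq_abs, abs_of_pos (by positivity)]
      push_cast
      rw [add_sub_cancel_right]
  · rintro r ⟨P, hP, rfl⟩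
    exact upper hn hP

end

end Pool.Agent.Results.MP_e182ca_an.MaxTopCoeff
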